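import Mathlib
import Pool.Agent.H17.MinDegree

/-!
# The design conjecture fails for `G_{≥d}` for infinitely many `d`
-/

namespace Pool.Agent.H17.Keep.MinDegreeFamily

open Pool.Agent.H17

theorem result :
    (∀ d : ℕ, 3 ≤ d → ¬ PlaneExists (d - 1) → PlaneExists d →
      √(d : ℝ) / (d + 1) ≤ gapMinDegree d ∧
      √((d : ℝ) - 2) / d < √(d : ℝ) / (d + 1) ∧
      ∀ (V : Type) [Fintype V] (G : SimpleGraph V),
        InMinDegree d G → IsDesignIncidenceGraph d G → gap G ≤ √((d : ℝ) - 2) / d) ∧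
    {d : ℕ | 3 ≤ d ∧ ¬ PlaneExists (d - 1) ∧ PlaneExists d}.Infinite ∧
    ¬ PlaneExists 6 ∧ PlaneExists 7 ∧ √(11 : ℝ) / 12 ≤ gapMinDegree 11 := by
  refine ⟨fun d hd hno hyes => ⟨le_gapMinDegree_of_plane hyes (by omega) (by omega),
    sqrt_sub_two_lt hd, fun V _ G hG hdes => gap_le_of_isDesignIncidenceGraph hd hno G hG hdes⟩,
    infinite_orders, not_plane_six, planeExists_prime 7 (by norm_num), ?_⟩
  have := le_gapMinDegree_of_plane (n := 11) (d := 11) (planeExists_prime 11 (by norm_num))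
    (by norm_num) (by norm_num)
  norm_num at this ⊢
  exact this

end Pool.Agent.H17.Keep.MinDegreeFamily
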